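import Pool.Agent.Helper24.CanRed.Main

/-!
MP_3d006f_al, Q1 (Moscariello-Strazzanti): every numerical semigroup with a canonical reduction
and embedding dimension four has type at most four.
-/

set_option autoImplicit false

namespace Pool.Agent.Results.MP_3d006f_al.TypeLeFour

open Pool.Agent.Helper24.CanRed

/-- Every numerical semigroup with a canonical reduction and exactly four minimal generators has
at most four pseudo-Frobenius numbers. -/
theorem result (Γ : AddSubmonoid ℕ) (_hΓ : ((Γ : Set ℕ)ᶜ).Finite)
    (hedim : (minimalGenerators Γ).encard = 4) (hcan : HasCanonicalReduction Γ) :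
    (PF Γ).encard ≤ 4 :=
  main Γ hedim hcan

end Pool.Agent.Results.MP_3d006f_al.TypeLeFour
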